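import Pool.Agent.Lib.TU2.QFin

/-!
MP_0f2f95_nt: words over the squares of the Möbius function with at most two nonzero letters each, at most two of them with exactly two:
all sign choices of all letters occur in the Möbius function for almost all places of the words (in residue classes).
-/

set_option autoImplicit false

open Finset

namespace Pool.Agent.Results.MP_0f2f95_nt.AlmostAllPlaces

/-- the Möbius function as a map from the natural numbers -/
def mu (n : ℕ) : ℤ := ArithmeticFunction.moebius n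

/-- the nonzero places of the word `μ(n), ..., μ(n + l - 1)` -/
def supp (n l : ℕ) : Finset ℕ := (range l).filter fun j => mu (n + j) ≠ 0

open Classical in
/-- logarithmic proportion of the `n` with property `E` among `1, ..., X` -/
noncomputable def logDens (X : ℕ) (E : ℕ → Prop) : ℝ :=
  (∑ n ∈ (Icc 1 X).filter E, (1 : ℝ) / n) / ∑ n ∈ Icc 1 X, (1 : ℝ) / n

/-- Words `i < r` at the places `Q * m i + n i`: for all signs `x i a` of the nonzero letters, the set of all `N` for which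
`μ(N + Q m_i + n_i + j)² = μ(n_i + j)²` for all `i`, `j < l i`, and the nonzero letters have the signs `x`, has positive upper
logarithmic density. -/
def Good {r : ℕ} (n l : Fin r → ℕ) (Q : ℕ) (m : Fin r → ℕ) : Prop :=
  ∀ x : Fin r → ℕ → ℤ, (∀ i, ∀ a ∈ supp (n i) (l i), x i a = 1 ∨ x i a = -1) →
    ∃ c : ℝ, 0 < c ∧ ∀ X₀ : ℕ, ∃ X : ℕ, X₀ ≤ X ∧ c ≤ logDens X (fun N =>
      (∀ i, ∀ j < l i, mu (N + (Q * m i + n i) + j) ^ 2 = mu (n i + j) ^ 2) ∧
      ∀ i, ∀ a ∈ supp (n i) (l i), mu (N + (Q * m i + n i) + a) = x i a)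

theorem muz_cast (n : ℕ) : Pool.Agent.Lib.TU.muz (n : ℤ) = mu n := by
  simp [Pool.Agent.Lib.TU.muz, mu]

theorem muz_add (n j : ℕ) : Pool.Agent.Lib.TU.muz ((n : ℤ) + (j : ℤ)) = mu (n + j) := by
  rw [← Nat.cast_add, muz_cast]

theorem muz_add3 (N Q m n j : ℕ) : Pool.Agent.Lib.TU.muz ((N : ℤ) + ((Q : ℤ) * (m : ℤ) + (n : ℤ)) + (j : ℤ)) = mu (N + (Q * m + n) + j) := by
  rw [← muz_cast]
  push_cast
  rfl

theorem supp_eq (n l : ℕ) : Pool.Agent.Lib.TU2.spt n l = supp n l := by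
  unfold Pool.Agent.Lib.TU2.spt supp
  simp only [muz_add]

theorem lav_eq (P : ℤ → Prop) [DecidablePred P] (X : ℕ) :
    Pool.Agent.Lib.TU.lav X (fun n => if P n then (1 : ℝ) else 0) = logDens X (fun n => P n) := by
  unfold Pool.Agent.Lib.TU.lav logDens
  congr 1
  rw [Finset.sum_filter]
  refine Finset.sum_congr rfl fun n _ => ?_
  by_cases hQ : P (n : ℤ) <;> simp [hQ]

theorem logDens_congr {X : ℕ} {E F : ℕ → Prop} (h : ∀ n, 1 ≤ n → (E n ↔ F n)) : logDens X E = logDens X F := by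
  classical
  unfold logDens
  congr 2
  refine Finset.filter_congr fun n hn => h n (Finset.mem_Icc.1 hn).1

open Classical in
theorem result {r : ℕ} (n l : Fin r → ℕ) (hn : ∀ i, 1 ≤ n i) (h2 : ∀ i, (supp (n i) (l i)).card ≤ 2)
    (hP : ((univ : Finset (Fin r)).filter (fun i => (supp (n i) (l i)).card = 2)).card ≤ 2) :
    ∃ Q : ℕ, 0 < Q ∧ ∀ δ : ℝ, 0 < δ → ∃ H₀ : ℕ, ∀ H : ℕ, H₀ ≤ H →
      (((Fintype.piFinset (fun _ : Fin r => range H)).filter (fun m => ¬ Good n l Q m)).card : ℝ) ≤ δ * (H : ℝ) ^ r := by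
  have h := Pool.Agent.Lib.TU2.words_fin n l hn (by simpa only [supp_eq] using h2) (by simpa only [supp_eq] using hP)
  obtain ⟨Q, hQ, h⟩ := h
  refine ⟨Q, hQ, fun δ hδ => ?_⟩
  obtain ⟨H0, h⟩ := h δ hδ
  refine ⟨H0, fun H hH => ?_⟩
  have h1 := h H hH
  have e : ∀ (m : Fin r → ℕ) (x : Fin r → ℕ → ℤ) (X : ℕ),
      Pool.Agent.Lib.TU.lav X (fun N => if 1 ≤ N ∧
        (∀ i, ∀ j : ℕ, j < l i → Pool.Agent.Lib.TU.muz (N + ((Q : ℤ) * m i + n i) + j) ^ 2 = Pool.Agent.Lib.TU.muz (n i + j) ^ 2) ∧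
        (∀ i, ∀ a ∈ Pool.Agent.Lib.TU2.spt (n i) (l i), Pool.Agent.Lib.TU.muz (N + ((Q : ℤ) * m i + n i) + a) = x i a) then (1 : ℝ) else 0) =
      logDens X (fun N => (∀ i, ∀ j < l i, mu (N + (Q * m i + n i) + j) ^ 2 = mu (n i + j) ^ 2) ∧
        ∀ i, ∀ a ∈ supp (n i) (l i), mu (N + (Q * m i + n i) + a) = x i a) := by
    intro m x X
    rw [lav_eq (fun N : ℤ => 1 ≤ N ∧
        (∀ i, ∀ j : ℕ, j < l i → Pool.Agent.Lib.TU.muz (N + ((Q : ℤ) * m i + n i) + j) ^ 2 = Pool.Agent.Lib.TU.muz (n i + j) ^ 2) ∧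
        (∀ i, ∀ a ∈ Pool.Agent.Lib.TU2.spt (n i) (l i), Pool.Agent.Lib.TU.muz (N + ((Q : ℤ) * m i + n i) + a) = x i a))]
    refine logDens_congr fun N hN => ?_
    have hN1 : (1 : ℤ) ≤ (N : ℤ) := by exact_mod_cast hN
    simp only [muz_add3, muz_add, supp_eq, hN1, true_and]
  simp only [e] at h1
  simp only [supp_eq] at h1
  exact h1

end Pool.Agent.Results.MP_0f2f95_nt.AlmostAllPlaces
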