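import Pool.Agent.Lib.TU.MuL
import Pool.Agent.Lib.TU.Pat

/-!
MP_0f2f95_nt: on every pattern of the square-free numbers every product of values of the Möbius function takes both signs.
-/

set_option autoImplicit false

open Finset

namespace Pool.Agent.Results.MP_0f2f95_nt.BothSigns

/-- the Möbius function as a map from the natural numbers -/
def mu (n : ℕ) : ℤ := ArithmeticFunction.moebius n

open Classical in
/-- logarithmic proportion of the `n` with property `E` among `1, ..., X` -/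
noncomputable def logDens (X : ℕ) (E : ℕ → Prop) : ℝ :=
  (∑ n ∈ (Icc 1 X).filter E, (1 : ℝ) / n) / ∑ n ∈ Icc 1 X, (1 : ℝ) / n

theorem muz_cast (n : ℕ) : Pool.Agent.Lib.TU.muz (n : ℤ) = mu n := by
  simp [Pool.Agent.Lib.TU.muz, mu]

theorem muz_add (n j : ℕ) : Pool.Agent.Lib.TU.muz ((n : ℤ) + (j : ℤ)) = mu (n + j) := by
  rw [← Nat.cast_add, muz_cast]

open Classical in
theorem lav_of_pr (Q : ℤ → Prop)
    (h : ∀ L : (ℤ → ℝ) →ₗ[ℝ] ℝ, Pool.Agent.Lib.TU.IsMean L → 0 < Pool.Agent.Lib.TU.pr L Q) :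
    ∃ c : ℝ, 0 < c ∧ ∃ X₀ : ℕ, ∀ X : ℕ, X₀ ≤ X → c ≤ logDens X (fun n => Q n) := by
  obtain ⟨c, hc, X0, hX0⟩ := Pool.Agent.Lib.TU.pos_of_means
    (fun n : ℤ => if Q n then (1 : ℝ) else 0) (Pool.Agent.Lib.TU.Bd.ind _) h
  refine ⟨c, hc, X0, fun X hX => (hX0 X hX).trans_eq ?_⟩
  unfold Pool.Agent.Lib.TU.lav logDens
  congr 1
  rw [Finset.sum_filter]
  refine Finset.sum_congr rfl fun n _ => ?_
  by_cases hQ : Q (n : ℤ) <;> simp [hQ]

theorem logDens_congr {X : ℕ} {E F : ℕ → Prop} (h : ∀ n, 1 ≤ n → (E n ↔ F n)) : logDens X E = logDens X F := by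
  classical
  unfold logDens
  congr 2
  refine Finset.filter_congr fun n hn => h n (Finset.mem_Icc.1 hn).1

theorem part1 (n₀ l : ℕ) (hn₀ : 1 ≤ n₀) (A : Finset ℕ) (hA : A.Nonempty)
    (hAl : ∀ a ∈ A, a < l ∧ mu (n₀ + a) ≠ 0) (s : ℤ) (hs : s = 1 ∨ s = -1) :
    ∃ c : ℝ, 0 < c ∧ ∃ X₀ : ℕ, ∀ X : ℕ, X₀ ≤ X →
      c ≤ logDens X (fun n => (∀ j < l, mu (n + j) ^ 2 = mu (n₀ + j) ^ 2) ∧ ∏ a ∈ A, mu (n + a) = s) := by
  obtain ⟨c, hc, X0, hX0⟩ := lav_of_pr _ (fun L hL => Pool.Agent.Lib.TU.mu_pos hL n₀ l hn₀ A hA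
    (fun a ha => by rw [muz_add]; exact hAl a ha) s hs)
  refine ⟨c, hc, X0, fun X hX => (hX0 X hX).trans_eq ?_⟩
  refine logDens_congr fun n hn => ?_
  have hn1 : (1 : ℤ) ≤ (n : ℤ) := by exact_mod_cast hn
  simp only [muz_add, hn1, true_and]

theorem exists_of_logDens {X : ℕ} {E : ℕ → Prop} (h : 0 < logDens X E) : ∃ n, 1 ≤ n ∧ E n := by
  classical
  by_contra hcon
  push Not at hcon
  have h0 : (Icc 1 X).filter E = ∅ := by
    refine Finset.filter_eq_empty_iff.2 fun n hn => hcon n (Finset.mem_Icc.1 hn).1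
  have : logDens X E = 0 := by
    unfold logDens
    have h1 : ∑ n ∈ (Icc 1 X).filter E, (1 : ℝ) / n = 0 := by
      refine Finset.sum_eq_zero fun n hn => ?_
      have := (Finset.mem_filter.1 hn)
      exact absurd this.2 (hcon n (Finset.mem_Icc.1 this.1).1)
    simp only [zero_div, h1]
  linarith

theorem mu_sq_ne {n : ℕ} (h : mu n ≠ 0) : mu n ^ 2 = 1 := by
  have := ArithmeticFunction.moebius_ne_zero_iff_eq_or.1 h
  unfold mu
  rcases this with h | h <;> rw [h] <;> norm_num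

theorem result (n₀ l : ℕ) (hn₀ : 1 ≤ n₀) :
    (∀ A : Finset ℕ, A.Nonempty → (∀ a ∈ A, a < l ∧ mu (n₀ + a) ≠ 0) → ∀ s : ℤ, s = 1 ∨ s = -1 →
      ∃ c : ℝ, 0 < c ∧ ∃ X₀ : ℕ, ∀ X : ℕ, X₀ ≤ X →
        c ≤ logDens X (fun n => (∀ j < l, mu (n + j) ^ 2 = mu (n₀ + j) ^ 2) ∧ ∏ a ∈ A, mu (n + a) = s)) ∧
    ((range l).filter (fun j => mu (n₀ + j) ≠ 0)).card + 1 ≤
      {w : Fin l → ℤ | (∀ j : Fin l, w j ^ 2 = mu (n₀ + j) ^ 2) ∧ ∃ n : ℕ, 1 ≤ n ∧ ∀ j : Fin l, mu (n + j) = w j}.ncard := by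
  classical
  refine ⟨fun A hA hAl s hs => part1 n₀ l hn₀ A hA hAl s hs, ?_⟩
  set S : Set (Fin l → ℤ) := {w : Fin l → ℤ | (∀ j : Fin l, w j ^ 2 = mu (n₀ + j) ^ 2) ∧
    ∃ n : ℕ, 1 ≤ n ∧ ∀ j : Fin l, mu (n + j) = w j} with hS
  have hfin : S.Finite := by
    refine Set.Finite.subset (Set.Finite.pi' (t := fun _ : Fin l => Set.Icc (-1 : ℤ) 1) fun _ => Set.finite_Icc _ _) ?_
    rintro w ⟨-, n, -, hn⟩ j
    rw [← hn j]
    unfold mu
    have h := ArithmeticFunction.abs_moebius_le_one (n := n + j)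
    exact abs_le.1 h
  let ι := {j : Fin l // mu (n₀ + j) ≠ 0}
  have hcard : ((range l).filter (fun j => mu (n₀ + j) ≠ 0)).card = Fintype.card ι := by
    rw [Fintype.card_subtype]
    refine (Finset.card_bij (fun (j : Fin l) _ => (j : ℕ)) ?_ ?_ ?_).symm
    · intro j hj
      simp only [Finset.mem_filter, Finset.mem_univ, true_and] at hj
      simp [hj]
    · intro i _ j _ h
      exact Fin.ext h
    · intro b hb
      simp only [Finset.mem_filter, Finset.mem_range] at hb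
      exact ⟨⟨b, hb.1⟩, by simp [hb.2], rfl⟩
  let P : Finset (ι → ℤ) := hfin.toFinset.image (fun w (i : ι) => w i.1)
  have hPS : P.card ≤ S.ncard := by
    rw [Set.ncard_eq_toFinset_card S hfin]
    exact Finset.card_image_le
  rw [hcard]
  refine le_trans (Pool.Agent.Lib.TU.card_patterns P ?_ ?_ ?_) hPS
  · intro w hw i
    obtain ⟨w', hw', rfl⟩ := Finset.mem_image.1 hw
    have h1 := ((hfin.mem_toFinset.1 hw').1 i.1)
    rw [mu_sq_ne i.2] at h1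
    have h2 : w' i.1 * w' i.1 = 1 := by rw [← sq]; exact h1
    exact mul_self_eq_one_iff.1 h2
  · refine ⟨_, Finset.mem_image.2 ⟨fun j : Fin l => mu (n₀ + j), hfin.mem_toFinset.2 ?_, rfl⟩⟩
    exact ⟨fun _ => rfl, n₀, hn₀, fun _ => rfl⟩
  · intro A hA s hs
    obtain ⟨c, hc, X0, hX0⟩ := part1 n₀ l hn₀ (A.image fun i : ι => ((i.1 : Fin l) : ℕ)) (hA.image _) (by
      intro a ha
      obtain ⟨i, -, rfl⟩ := Finset.mem_image.1 ha
      exact ⟨i.1.2, i.2⟩) s hs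
    obtain ⟨n, hn1, hn, hns⟩ := exists_of_logDens (hc.trans_le (hX0 X0 le_rfl))
    refine ⟨_, Finset.mem_image.2 ⟨fun j : Fin l => mu (n + j), hfin.mem_toFinset.2 ?_, rfl⟩, ?_⟩
    · exact ⟨fun j => hn j j.2, n, hn1, fun _ => rfl⟩
    · rw [Finset.prod_image] at hns
      · exact hns
      · intro i _ j _ h
        exact Subtype.ext (Fin.ext h)

end Pool.Agent.Results.MP_0f2f95_nt.BothSigns
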