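import Pool.Agent.Lib.TU2.PFin

/-!
MP_0f2f95_nt: on every word of squares of the Möbius function with `s` nonzero letters, all sign patterns occur on all but
`4 ^ k s ^ (k - 1)` of the `s ^ k` tuples of `k` nonzero places.
-/

set_option autoImplicit false

open Finset

namespace Pool.Agent.Results.MP_0f2f95_nt.MostTuples

/-- the Möbius function as a map from the natural numbers -/
def mu (n : ℕ) : ℤ := ArithmeticFunction.moebius n

open Classical in
/-- logarithmic proportion of the `n` with property `E` among `1, ..., X` -/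
noncomputable def logDens (X : ℕ) (E : ℕ → Prop) : ℝ :=
  (∑ n ∈ (Icc 1 X).filter E, (1 : ℝ) / n) / ∑ n ∈ Icc 1 X, (1 : ℝ) / n

theorem muz_cast (n : ℕ) : Pool.Agent.Lib.TU.muz (n : ℤ) = mu n := by
  simp [Pool.Agent.Lib.TU.muz, mu]

theorem muz_add (n j : ℕ) : Pool.Agent.Lib.TU.muz ((n : ℤ) + (j : ℤ)) = mu (n + j) := by
  rw [← Nat.cast_add, muz_cast]

theorem lav_eq (Q : ℤ → Prop) [DecidablePred Q] (X : ℕ) :
    Pool.Agent.Lib.TU.lav X (fun n => if Q n then (1 : ℝ) else 0) = logDens X (fun n => Q n) := by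
  unfold Pool.Agent.Lib.TU.lav logDens
  congr 1
  rw [Finset.sum_filter]
  refine Finset.sum_congr rfl fun n _ => ?_
  by_cases hQ : Q (n : ℤ) <;> simp [hQ]

theorem logDens_congr {X : ℕ} {E F : ℕ → Prop} (h : ∀ n, 1 ≤ n → (E n ↔ F n)) : logDens X E = logDens X F := by
  classical
  unfold logDens
  congr 2
  refine Finset.filter_congr fun n hn => h n (Finset.mem_Icc.1 hn).1

open Classical in
theorem result (n₀ l k : ℕ) (hn₀ : 1 ≤ n₀) :
    ((Fintype.piFinset (fun _ : Fin k => (range l).filter (fun j => mu (n₀ + j) ≠ 0))).filter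
      (fun a => ¬ ∀ x : Fin k → ℤ, (∀ i, x i = 1 ∨ x i = -1) → ∃ c : ℝ, 0 < c ∧ ∀ X₀ : ℕ, ∃ X : ℕ, X₀ ≤ X ∧
        c ≤ logDens X (fun n => (∀ j < l, mu (n + j) ^ 2 = mu (n₀ + j) ^ 2) ∧ ∀ i, mu (n + a i) = x i))).card ≤
      4 ^ k * ((range l).filter (fun j => mu (n₀ + j) ≠ 0)).card ^ (k - 1) := by
  have h := Pool.Agent.Lib.TU2.word_fin n₀ l k hn₀
  have hS : Pool.Agent.Lib.TU2.spt n₀ l = (range l).filter (fun j => mu (n₀ + j) ≠ 0) := by
    unfold Pool.Agent.Lib.TU2.spt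
    simp only [muz_add]
  rw [hS] at h
  have e : ∀ (a : Fin k → ℕ) (x : Fin k → ℤ) (X : ℕ),
      Pool.Agent.Lib.TU.lav X (fun n => if 1 ≤ n ∧ (∀ j : ℕ, j < l → Pool.Agent.Lib.TU.muz (n + j) ^ 2 =
        Pool.Agent.Lib.TU.muz ((n₀ : ℤ) + j) ^ 2) ∧ ∀ i, Pool.Agent.Lib.TU.muz (n + a i) = x i then (1 : ℝ) else 0) =
      logDens X (fun n => (∀ j < l, mu (n + j) ^ 2 = mu (n₀ + j) ^ 2) ∧ ∀ i, mu (n + a i) = x i) := by
    intro a x X
    rw [lav_eq (fun n : ℤ => 1 ≤ n ∧ (∀ j : ℕ, j < l → Pool.Agent.Lib.TU.muz (n + j) ^ 2 =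
        Pool.Agent.Lib.TU.muz ((n₀ : ℤ) + j) ^ 2) ∧ ∀ i, Pool.Agent.Lib.TU.muz (n + a i) = x i)]
    refine logDens_congr fun n hn => ?_
    have hn1 : (1 : ℤ) ≤ (n : ℤ) := by exact_mod_cast hn
    simp only [muz_add, hn1, true_and]
  simp only [e] at h
  exact h

end Pool.Agent.Results.MP_0f2f95_nt.MostTuples
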